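import Mathlib
import Pool.Agent.V11216.Novikov

/-!
# MP_ceb5ee_gt : Borel hulls of analytic null-finite sets
-/

namespace Pool.Agent.Results.MP_ceb5ee_gt.AnalyticHull

open Set MeasureTheory Filter Topology Pool.Agent.V11216.Novikov

/-- A subset `A` of a topological abelian group is null-finite if there is a null-sequence
`(x_n)` such that for every `x` only finitely many `n` satisfy `x + x_n ∈ A`. -/
def NullFinite {X : Type*} [AddCommGroup X] [TopologicalSpace X] (A : Set X) : Prop :=
  ∃ x : ℕ → X, Tendsto x atTop (𝓝 0) ∧ ∀ y : X, {n : ℕ | y + x n ∈ A}.Finite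

/-- Every analytic null-finite subset `A` of a Polish abelian group is contained in a Borel
null-finite set (and the null-sequence witnessing null-finiteness of `A` works for the hull). -/
theorem result (X : Type*) [AddCommGroup X] [TopologicalSpace X] [IsTopologicalAddGroup X]
    [PolishSpace X] (A : Set X) (hA : AnalyticSet A) :
    (NullFinite A → ∃ B : Set X, @MeasurableSet X (borel X) B ∧ NullFinite B ∧ A ⊆ B) ∧
    ∀ x : ℕ → X, (∀ y : X, {n : ℕ | y + x n ∈ A}.Finite) →
      ∃ B : Set X, @MeasurableSet X (borel X) B ∧ A ⊆ B ∧ ∀ y : X, {n : ℕ | y + x n ∈ B}.Finite := by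
  have key : ∀ x : ℕ → X, (∀ y : X, {n : ℕ | y + x n ∈ A}.Finite) →
      ∃ B : Set X, @MeasurableSet X (borel X) B ∧ A ⊆ B ∧
        ∀ y : X, {n : ℕ | y + x n ∈ B}.Finite := by
    intro x hx
    let _ : MeasurableSpace X := borel X
    have _ : BorelSpace X := ⟨rfl⟩
    let P : ℕ → Set X := fun N => ⋃ n : {n : ℕ // N ≤ n}, (fun a => a - x n) '' A
    have hPan : ∀ N, AnalyticSet (P N) := by
      intro N
      apply AnalyticSet.iUnion
      intro n
      exact hA.image_of_continuous (continuous_id.sub continuous_const)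
    have hPe : ⋂ N, P N = ∅ := by
      rw [eq_empty_iff_forall_notMem]
      intro y hy
      rw [mem_iInter] at hy
      have hinf : {n : ℕ | y + x n ∈ A}.Infinite := by
        rw [Set.infinite_iff_exists_gt]
        intro N
        obtain ⟨n, a, ha, hay⟩ := mem_iUnion.1 (hy (N + 1))
        refine ⟨n, ?_, ?_⟩
        · have : y + x n = a := by
            rw [← hay]
            simp
          rw [mem_ofPred_eq, this]
          exact ha
        · have := n.2
          omega
      exact hinf (hx y)
    obtain ⟨Q, hQ, hQm, hQe⟩ := novikov P hPan hPe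
    refine ⟨⋂ N : ℕ, ⋂ n : {n : ℕ // N ≤ n}, (fun a => a - x n) ⁻¹' Q N, ?_, ?_, ?_⟩
    · apply MeasurableSet.iInter
      intro N
      apply MeasurableSet.iInter
      intro n
      have hc : Continuous fun a : X => a - x n := continuous_id.sub continuous_const
      exact hc.measurable (hQm N)
    · intro a ha
      rw [mem_iInter]
      intro N
      rw [mem_iInter]
      intro n
      exact hQ N (mem_iUnion.2 ⟨n, a, ha, rfl⟩)
    · intro y
      by_contra hinf
      have hinf : {n : ℕ | y + x n ∈ ⋂ N : ℕ, ⋂ n : {n : ℕ // N ≤ n},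
          (fun a => a - x n) ⁻¹' Q N}.Infinite := hinf
      have : y ∈ ⋂ N, Q N := by
        rw [mem_iInter]
        intro N
        obtain ⟨n, hn, hNn⟩ := hinf.exists_gt N
        have h1 : y + x n ∈ (fun a => a - x n) ⁻¹' Q N := by
          have h2 := mem_iInter.1 hn N
          exact mem_iInter.1 h2 ⟨n, hNn.le⟩
        simpa using h1
      rw [hQe] at this
      exact this
  refine ⟨?_, key⟩
  rintro ⟨x, hx0, hx⟩
  obtain ⟨B, hB, hAB, hBx⟩ := key x hx
  exact ⟨B, hB, ⟨x, hx0, hBx⟩, hAB⟩

end Pool.Agent.Results.MP_ceb5ee_gt.AnalyticHull
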